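import Pool.Agent.X193.QPOL.Order

/-!
A family of embeddings of `(ℚ; <)` indexed by the branches of the binary tree: two of them agree on
a finite set only, and are separated elsewhere.
-/

namespace Pool.Agent.X193.QPOL

open Filter

/-- an enumeration of the rationals -/
noncomputable def en : ℕ ≃ ℚ := (Denumerable.eqv ℚ).symm

/-- the place of a rational in the enumeration -/
noncomputable def idx (z : ℚ) : ℕ := en.symm z

theorem en_idx (z : ℚ) : en (idx z) = z := en.apply_symm_apply z

theorem idx_en (n : ℕ) : idx (en n) = n := en.symm_apply_apply n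

/-- comparison with the `j`-th rational -/
noncomputable def cd (j : ℕ) (z : ℚ) : ℕ := if z < en j then 0 else if z = en j then 1 else 2

theorem cd_lt3 (j : ℕ) (z : ℚ) : cd j z < 3 := by
  unfold cd
  split_ifs <;> omega

theorem cd_mono {j : ℕ} {z z' : ℚ} (h : z ≤ z') : cd j z ≤ cd j z' := by
  unfold cd
  by_cases h1 : z < en j
  · rw [if_pos h1]; exact Nat.zero_le _
  · rw [if_neg h1]
    by_cases h2 : z = en j
    · rw [if_pos h2, if_neg (by rw [← h2]; exact not_lt.2 h)]
      split_ifs <;> omega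
    · rw [if_neg h2]
      have h3 : en j < z := lt_of_le_of_ne (not_lt.1 h1) (Ne.symm h2)
      rw [if_neg (not_lt.2 (le_of_lt (lt_of_lt_of_le h3 h))),
        if_neg (ne_of_gt (lt_of_lt_of_le h3 h))]

theorem cd_eq_one {j : ℕ} {z : ℚ} : cd j z = 1 ↔ z = en j := by
  unfold cd
  constructor
  · intro h
    by_contra h2
    rw [if_neg h2] at h
    split_ifs at h <;> omega
  · intro h
    rw [if_neg (by rw [h]; exact lt_irrefl _), if_pos h]

theorem cd_idx {z : ℚ} : cd (idx z) z = 1 := cd_eq_one.2 (en_idx z).symm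

/-- the words -/
noncomputable def W (x : ℕ → ℕ) (N : ℕ) (z : ℚ) : Lex (ℕ →₀ ℕ) :=
  toLex (Finsupp.onFinset (Finset.range N)
    (fun i => if i < N then (if i % 2 = 0 then cd (i / 2) z else x (i / 2)) else 0) (by
      intro i hi
      by_contra h
      rw [Finset.mem_range] at h
      rw [if_neg h] at hi
      exact hi rfl))

theorem W_apply (x : ℕ → ℕ) (N : ℕ) (z : ℚ) (i : ℕ) :
    (ofLex (W x N z)) i = if i < N then (if i % 2 = 0 then cd (i / 2) z else x (i / 2)) else 0 :=
  rfl

theorem lex_lt {a b : Lex (ℕ →₀ ℕ)} (i : ℕ) (h1 : ∀ j < i, (ofLex a) j = (ofLex b) j)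
    (h2 : (ofLex a) i < (ofLex b) i) : a < b := ⟨i, h1, h2⟩

/-- The first difference is a comparison digit. -/
theorem W_lt {x x' : ℕ → ℕ} {N N' : ℕ} {z z' : ℚ} (j : ℕ) (hj : cd j z < cd j z')
    (h1 : ∀ i < j, cd i z = cd i z') (h2 : ∀ i < j, x i = x' i) (hN : 2 * j < N)
    (hN' : 2 * j < N') : W x N z < W x' N' z' := by
  refine lex_lt (2 * j) (fun i hi => ?_) ?_
  · have hi1 : i < N := by omega
    have hi2 : i < N' := by omega
    rw [W_apply, W_apply, if_pos hi1, if_pos hi2]
    by_cases h : i % 2 = 0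
    · rw [if_pos h, if_pos h, h1 _ (by omega)]
    · rw [if_neg h, if_neg h, h2 _ (by omega)]
  · rw [W_apply, W_apply, if_pos hN, if_pos hN', if_pos (by omega), if_pos (by omega),
      show 2 * j / 2 = j by omega]
    exact hj

/-- The first difference is one of the digits `x j`. -/
theorem W_lt' {x x' : ℕ → ℕ} {N N' : ℕ} {z z' : ℚ} (j : ℕ) (hj : x j < x' j)
    (h1 : ∀ i ≤ j, cd i z = cd i z') (h2 : ∀ i < j, x i = x' i) (hN : 2 * j + 1 < N)
    (hN' : 2 * j + 1 < N') : W x N z < W x' N' z' := by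
  refine lex_lt (2 * j + 1) (fun i hi => ?_) ?_
  · have hi1 : i < N := by omega
    have hi2 : i < N' := by omega
    rw [W_apply, W_apply, if_pos hi1, if_pos hi2]
    by_cases h : i % 2 = 0
    · rw [if_pos h, if_pos h, h1 _ (by omega)]
    · rw [if_neg h, if_neg h, h2 _ (by omega)]
  · rw [W_apply, W_apply, if_pos hN, if_pos hN', if_neg (by omega), if_neg (by omega),
      show (2 * j + 1) / 2 = j by omega]
    exact hj

theorem W_congr {x x' : ℕ → ℕ} {N : ℕ} {z z' : ℚ} (h1 : ∀ i, 2 * i < N → cd i z = cd i z')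
    (h2 : ∀ i, 2 * i + 1 < N → x i = x' i) : W x N z = W x' N z' := by
  apply toLex.symm.injective
  apply Finsupp.ext
  intro i
  change (ofLex (W x N z)) i = (ofLex (W x' N z')) i
  rw [W_apply, W_apply]
  by_cases hi : i < N
  · rw [if_pos hi, if_pos hi]
    by_cases h : i % 2 = 0
    · rw [if_pos h, if_pos h, h1 _ (by omega)]
    · rw [if_neg h, if_neg h, h2 _ (by omega)]
  · rw [if_neg hi, if_neg hi]

/-- The first place at which two rationals are told apart. -/
theorem first_diff {z z' : ℚ} (h : z < z') : ∃ j, cd j z < cd j z' ∧ (∀ i < j, cd i z = cd i z') ∧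
    j ≤ idx z ∧ j ≤ idx z' := by
  classical
  have hne : z ≠ z' := ne_of_lt h
  have h1 : cd (idx z) z ≠ cd (idx z) z' := by
    rw [cd_idx]
    intro h2
    have h3 := cd_eq_one.1 h2.symm
    rw [en_idx] at h3
    exact hne h3.symm
  have h1' : cd (idx z') z ≠ cd (idx z') z' := by
    rw [cd_idx]
    intro h2
    have h3 := cd_eq_one.1 h2
    rw [en_idx] at h3
    exact hne h3
  have hex : ∃ j, cd j z ≠ cd j z' := ⟨_, h1⟩
  refine ⟨Nat.find hex, lt_of_le_of_ne (cd_mono (le_of_lt h)) (Nat.find_spec hex), fun i hi => ?_,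
    Nat.find_min' hex h1, Nat.find_min' hex h1'⟩
  have := Nat.find_min hex hi
  push Not at this
  exact this

/-- an embedding of the words into the rationals -/
noncomputable def emb : Lex (ℕ →₀ ℕ) ↪o ℚ :=
  have : Countable (Lex (ℕ →₀ ℕ)) := inferInstanceAs (Countable (ℕ →₀ ℕ))
  (Order.embedding_from_countable_to_dense (Lex (ℕ →₀ ℕ)) ℚ).some

/-- digits of a branch -/
def dg (x : ℕ → Bool) (i : ℕ) : ℕ := if x i then 3 else 0

/-- the embedding which belongs to a branch -/
noncomputable def e (x : ℕ → Bool) (z : ℚ) : ℚ := emb (W (dg x) (2 * idx z + 1) z)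

theorem e_mono (x : ℕ → Bool) : StrictMono (e x) := by
  intro z z' h
  obtain ⟨j, h1, h2, h3, h4⟩ := first_diff h
  exact emb.lt_iff_lt.2 (W_lt j h1 h2 (fun _ _ => rfl) (by omega) (by omega))

section

variable (x : ℕ → Bool) (m : ℕ)

/-- the digits with one digit changed -/
def sg (d : ℕ) (i : ℕ) : ℕ := if i = m then d else dg x i

theorem sg_ne {d i : ℕ} (h : i < m) : sg x m d i = dg x i := if_neg (by omega)

theorem sg_self (d : ℕ) : sg x m d m = d := if_pos rfl

/-- the separators -/
noncomputable def sp (d : ℕ) (z : ℚ) : ℚ := emb (W (sg x m d) (2 * m + 2) z)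

/-- the source points -/
noncomputable def src (z : ℚ) (b : Bool) : ℚ :=
  if idx z ≤ m then e x z else if b then sp x m 2 z else sp x m 1 z

theorem src_lt {r r' : ℚ} (h : r < r') (hk : ∃ j ≤ m, cd j r ≠ cd j r') (b b' : Bool) :
    src x m r b < src x m r' b' := by
  obtain ⟨j, h1, h2, h3, h4⟩ := first_diff h
  have hjm : j ≤ m := by
    obtain ⟨i, hi, hne⟩ := hk
    by_contra hjm
    exact hne (h2 i (by omega))
  have hd : ∀ d i, i < j → sg x m d i = dg x i := fun d i hi => sg_ne x m (by omega)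
  have hd' : ∀ d d' i, i < j → sg x m d i = sg x m d' i := fun d d' i hi => by
    rw [hd d i hi, hd d' i hi]
  unfold src
  by_cases hr : idx r ≤ m <;> by_cases hr' : idx r' ≤ m
  · rw [if_pos hr, if_pos hr']
    exact e_mono x h
  · rw [if_pos hr, if_neg hr']
    cases b'
    · exact emb.lt_iff_lt.2 (W_lt j h1 h2 (fun i hi => (hd 1 i hi).symm) (by omega) (by omega))
    · exact emb.lt_iff_lt.2 (W_lt j h1 h2 (fun i hi => (hd 2 i hi).symm) (by omega) (by omega))
  · rw [if_neg hr, if_pos hr']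
    cases b
    · exact emb.lt_iff_lt.2 (W_lt j h1 h2 (fun i hi => (hd 1 i hi)) (by omega) (by omega))
    · exact emb.lt_iff_lt.2 (W_lt j h1 h2 (fun i hi => (hd 2 i hi)) (by omega) (by omega))
  · rw [if_neg hr, if_neg hr']
    cases b <;> cases b'
    · exact emb.lt_iff_lt.2 (W_lt j h1 h2 (fun i hi => hd' 1 1 i hi) (by omega) (by omega))
    · exact emb.lt_iff_lt.2 (W_lt j h1 h2 (fun i hi => hd' 1 2 i hi) (by omega) (by omega))
    · exact emb.lt_iff_lt.2 (W_lt j h1 h2 (fun i hi => hd' 2 1 i hi) (by omega) (by omega))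
    · exact emb.lt_iff_lt.2 (W_lt j h1 h2 (fun i hi => hd' 2 2 i hi) (by omega) (by omega))

theorem sp_lt (z : ℚ) : sp x m 1 z < sp x m 2 z :=
  emb.lt_iff_lt.2 (W_lt' m (by rw [sg_self, sg_self]; omega) (fun _ _ => rfl) (fun i hi => by
    rw [sg_ne x m hi, sg_ne x m hi]) (by omega) (by omega))

theorem sp_congr (d : ℕ) {z z' : ℚ} (h : ∀ j ≤ m, cd j z = cd j z') :
    sp x m d z = sp x m d z' :=
  congrArg emb (W_congr (fun i hi => h i (by omega)) fun _ _ => rfl)

theorem e_lt_sp (hx : x m = false) {z : ℚ} (hz : m < idx z) : e x z < sp x m 1 z :=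
  emb.lt_iff_lt.2 (W_lt' m (by rw [sg_self]; simp [dg, hx]) (fun _ _ => rfl) (fun i hi => by
    rw [sg_ne x m hi]) (by omega) (by omega))

theorem sp_lt_e {x' : ℕ → Bool} (h : ∀ i < m, x i = x' i) (hx : x' m = true) {z : ℚ}
    (hz : m < idx z) : sp x m 2 z < e x' z :=
  emb.lt_iff_lt.2 (W_lt' m (by rw [sg_self]; simp [dg, hx]) (fun _ _ => rfl) (fun i hi => by
    rw [sg_ne x m hi]
    unfold dg
    rw [h i hi]) (by omega) (by omega))

theorem e_agree {x' : ℕ → Bool} (h : ∀ i < m, x i = x' i) {z : ℚ} (hz : idx z ≤ m) :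
    e x z = e x' z :=
  congrArg emb (W_congr (fun _ _ => rfl) fun i hi => by
    unfold dg
    rw [h i (by omega)])

end

theorem idx_of_key {m : ℕ} {z r : ℚ} (h : ∀ j ≤ m, cd j z = cd j r) (hz : idx z ≤ m) : r = z := by
  have h1 := h _ hz
  rw [cd_idx] at h1
  rw [cd_eq_one.1 h1.symm, en_idx]

/-- If two rationals outside of the first `m + 1` rationals are told apart by these, one of these
lies in between. -/
theorem between {m : ℕ} {r r' : ℚ} (h : r < r') (hk : ∃ j ≤ m, cd j r ≠ cd j r') (hr : m < idx r)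
    (hr' : m < idx r') : ∃ s, idx s ≤ m ∧ r < s ∧ s < r' := by
  obtain ⟨j, hj, hne⟩ := hk
  have h1 : cd j r < cd j r' := lt_of_le_of_ne (cd_mono (le_of_lt h)) hne
  have h2 : r ≠ en j := fun h2 => by rw [h2, idx_en] at hr; omega
  have h3 : r' ≠ en j := fun h2 => by rw [h2, idx_en] at hr'; omega
  refine ⟨en j, by rw [idx_en]; exact hj, ?_, ?_⟩
  · by_contra h4
    unfold cd at h1
    rw [if_neg h4, if_neg h2] at h1
    split_ifs at h1 <;> omega
  · by_contra h4
    have h5 : r' < en j := lt_of_le_of_ne (not_lt.1 h4) h3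
    unfold cd at h1
    rw [if_pos h5] at h1
    omega

/-- order relations to the first rationals depend on the key only -/
theorem key_lt {m : ℕ} {z r s : ℚ} (h : ∀ j ≤ m, cd j z = cd j r) (hs : idx s ≤ m) :
    (s < z ↔ s < r) ∧ (z < s ↔ r < s) := by
  have h1 := h _ hs
  unfold cd at h1
  rw [en_idx] at h1
  constructor
  · constructor
    · intro h2
      rw [if_neg (not_lt.2 (le_of_lt h2)), if_neg (ne_of_gt h2)] at h1
      by_contra h3
      rcases lt_or_eq_of_le (not_lt.1 h3) with h4 | h4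
      · rw [if_pos h4] at h1; omega
      · rw [if_neg (by rw [h4]; exact lt_irrefl _), if_pos h4] at h1; omega
    · intro h2
      rw [if_neg (not_lt.2 (le_of_lt h2)), if_neg (ne_of_gt h2)] at h1
      by_contra h3
      rcases lt_or_eq_of_le (not_lt.1 h3) with h4 | h4
      · rw [if_pos h4] at h1; omega
      · rw [if_neg (by rw [h4]; exact lt_irrefl _), if_pos h4] at h1; omega
  · constructor
    · intro h2
      rw [if_pos h2] at h1
      by_contra h3
      rw [if_neg h3] at h1
      split_ifs at h1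
    · intro h2
      rw [if_pos h2] at h1
      by_contra h3
      rw [if_neg h3] at h1
      split_ifs at h1

/-- Bounds for the values on an interval between consecutive elements of a finite set. -/
theorem bounds {m : ℕ} {f g : ℚ → ℚ} (hle : ∀ z, f z ≤ g z) (hfg : ∀ s, idx s ≤ m → f s = g s)
    (hf : ∀ s, idx s ≤ m → Jump f s) (hg : ∀ s, idx s ≤ m → Jump g s) (hfb : Bdd f) (hgb : Bdd g)
    (r : ℚ) (hr : m < idx r) :
    ∃ u v, (∀ s, idx s ≤ m → s < r → f s < u) ∧ (∀ s, idx s ≤ m → r < s → v < f s) ∧ u < v ∧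
      ∀ z, (∀ j ≤ m, cd j z = cd j r) → u < f z ∧ g z < v := by
  classical
  obtain ⟨a1, b1, h1⟩ := hfb
  obtain ⟨a2, b2, h2⟩ := hgb
  choose! aF bF hF1 hF2 hF3 hF4 using hf
  choose! aG bG hG1 hG2 hG3 hG4 using hg
  let t : Finset ℚ := (Finset.range (m + 1)).image en
  have ht : ∀ s, s ∈ t ↔ idx s ≤ m := by
    intro s
    rw [Finset.mem_image]
    constructor
    · rintro ⟨j, hj, rfl⟩
      rw [idx_en]
      have := Finset.mem_range.1 hj
      omega
    · intro h
      exact ⟨idx s, Finset.mem_range.2 (by omega), en_idx s⟩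
  let Lo : Finset ℚ := insert a1 ((t.filter (· < r)).image bF)
  let Hi : Finset ℚ := insert b2 ((t.filter (r < ·)).image aG)
  have hLo : Lo.Nonempty := ⟨a1, Finset.mem_insert_self _ _⟩
  have hHi : Hi.Nonempty := ⟨b2, Finset.mem_insert_self _ _⟩
  have hu : ∀ z, (∀ j ≤ m, cd j z = cd j r) → ∀ c ∈ Lo, c < f z := by
    intro z hz c hc
    rcases Finset.mem_insert.1 hc with rfl | hc
    · exact (h1 z).1
    · obtain ⟨s, hs, rfl⟩ := Finset.mem_image.1 hc
      obtain ⟨hs1, hs2⟩ := Finset.mem_filter.1 hs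
      exact hF4 s ((ht s).1 hs1) z ((key_lt hz ((ht s).1 hs1)).1.2 hs2)
  have hv : ∀ z, (∀ j ≤ m, cd j z = cd j r) → ∀ c ∈ Hi, g z < c := by
    intro z hz c hc
    rcases Finset.mem_insert.1 hc with rfl | hc
    · exact (h2 z).2
    · obtain ⟨s, hs, rfl⟩ := Finset.mem_image.1 hc
      obtain ⟨hs1, hs2⟩ := Finset.mem_filter.1 hs
      exact hG3 s ((ht s).1 hs1) z ((key_lt hz ((ht s).1 hs1)).2.2 hs2)
  have hu' := hu r (fun _ _ => rfl) _ (Finset.max'_mem Lo hLo)
  refine ⟨Lo.max' hLo, Hi.min' hHi, ?_, ?_, ?_, fun z hz =>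
    ⟨hu z hz _ (Finset.max'_mem Lo hLo), hv z hz _ (Finset.min'_mem Hi hHi)⟩⟩
  · intro s hs hsr
    refine lt_of_lt_of_le (hF2 s hs) (Finset.le_max' _ _ ?_)
    exact Finset.mem_insert_of_mem (Finset.mem_image_of_mem _
      (Finset.mem_filter.2 ⟨(ht s).2 hs, hsr⟩))
  · intro s hs hsr
    rw [hfg s hs]
    refine lt_of_le_of_lt (Finset.min'_le Hi (aG s) ?_) (hG1 s hs)
    exact Finset.mem_insert_of_mem (Finset.mem_image_of_mem _
      (Finset.mem_filter.2 ⟨(ht s).2 hs, hsr⟩))
  · exact lt_of_lt_of_le hu' (le_trans (hle r)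
      (le_of_lt (hv r (fun _ _ => rfl) _ (Finset.min'_mem Hi hHi))))

/-- The sandwich: up to an automorphism, the pair `e x`, `e x'` is below, respectively above, any
given pair with sufficiently many jumps which agrees on the first rationals. -/
theorem sandwich {x x' : ℕ → Bool} {m : ℕ} (hxx : ∀ i < m, x i = x' i) (hx : x m = false)
    (hx' : x' m = true) {f g : ℚ → ℚ} (hfm : StrictMono f) (hle : ∀ z, f z ≤ g z)
    (hfg : ∀ s, idx s ≤ m → f s = g s)
    (hf : ∀ s, idx s ≤ m → Jump f s) (hg : ∀ s, idx s ≤ m → Jump g s) (hfb : Bdd f) (hgb : Bdd g) :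
    ∃ σ : ℚ ≃o ℚ, (∀ z, σ (e x z) ≤ f z) ∧ ∀ z, g z ≤ σ (e x' z) := by
  classical
  have hb := bounds hle hfg hf hg hfb hgb
  choose! u v hu hv huv huvz using hb
  let K := Fin (m + 1) → Fin 3
  let key : ℚ → K := fun z j => ⟨cd j z, cd_lt3 _ _⟩
  have hkey : ∀ z z', key z = key z' → ∀ j ≤ m, cd j z = cd j z' := by
    intro z z' h j hj
    have h1 := congrFun h ⟨j, by omega⟩
    exact congrArg Fin.val h1
  have hkey' : ∀ z z', key z ≠ key z' → ∃ j ≤ m, cd j z ≠ cd j z' := by
    intro z z' h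
    by_contra h1
    push Not at h1
    exact h (funext fun j => Fin.ext (h1 j (by omega)))
  let rep : K → ℚ := fun k => if h : ∃ z, key z = k then h.choose else 0
  have hrep : ∀ z, key (rep (key z)) = key z := by
    intro z
    have h : ∃ z', key z' = key z := ⟨z, rfl⟩
    have h1 : rep (key z) = h.choose := dif_pos h
    rw [h1]
    exact h.choose_spec
  let tgt : ℚ → Bool → ℚ := fun r b => if idx r ≤ m then f r else if b then v r else u r
  have htgt : ∀ r r', r < r' → key r ≠ key r' → ∀ b b', tgt r b < tgt r' b' := by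
    intro r r' h hk b b'
    by_cases hr : idx r ≤ m <;> by_cases hr' : idx r' ≤ m
    · simp only [tgt, if_pos hr, if_pos hr']
      exact hfm h
    · simp only [tgt, if_pos hr, if_neg hr']
      have h1 := hu r' (by omega) r hr h
      have h2 := huv r' (by omega)
      cases b'
      · exact h1
      · exact h1.trans h2
    · simp only [tgt, if_neg hr, if_pos hr']
      have h1 := hv r (by omega) r' hr' h
      have h2 := huv r (by omega)
      cases b
      · exact h2.trans h1
      · exact h1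
    · simp only [tgt, if_neg hr, if_neg hr']
      obtain ⟨s, hs1, hs2, hs3⟩ := between h (hkey' r r' hk) (by omega) (by omega)
      have h1 := hv r (by omega) s hs1 hs2
      have h2 := hu r' (by omega) s hs1 hs3
      have h3 := huv r (by omega)
      have h4 := huv r' (by omega)
      cases b <;> cases b'
      · exact h3.trans (h1.trans h2)
      · exact h3.trans (h1.trans (h2.trans h4))
      · exact h1.trans h2
      · exact h1.trans (h2.trans h4)
  let P : Finset (K × Bool) := (Finset.univ.filter fun k : K => ∃ z, key z = k) ×ˢ Finset.univ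
  have hPk : ∀ i ∈ P, key (rep i.1) = i.1 := by
    intro i hi
    obtain ⟨z, hz⟩ := (Finset.mem_filter.1 (Finset.mem_product.1 hi).1).2
    rw [← hz]
    exact hrep z
  obtain ⟨σ, hσ⟩ := auto_match P (fun i => src x m (rep i.1) i.2) (fun i => tgt (rep i.1) i.2) (by
    rintro ⟨k, b⟩ hi ⟨k', b'⟩ hj
    have hk : key (rep k) = k := hPk _ hi
    have hk' : key (rep k') = k' := hPk _ hj
    change src x m (rep k) b < src x m (rep k') b' ↔ tgt (rep k) b < tgt (rep k') b'
    by_cases hkk : k = k'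
    · subst hkk
      by_cases hr : idx (rep k) ≤ m
      · simp only [src, tgt, if_pos hr]
        exact ⟨fun h => absurd h (lt_irrefl _), fun h => absurd h (lt_irrefl _)⟩
      · simp only [src, tgt, if_neg hr]
        have h1 := sp_lt x m (rep k)
        have h2 := huv (rep k) (by omega)
        cases b <;> cases b'
        · exact ⟨fun h => absurd h (lt_irrefl _), fun h => absurd h (lt_irrefl _)⟩
        · exact ⟨fun _ => h2, fun _ => h1⟩
        · exact ⟨fun h => absurd (h.trans h1) (lt_irrefl _),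
            fun h => absurd (h.trans h2) (lt_irrefl _)⟩
        · exact ⟨fun h => absurd h (lt_irrefl _), fun h => absurd h (lt_irrefl _)⟩
    · have hne : key (rep k) ≠ key (rep k') := by rw [hk, hk']; exact hkk
      rcases lt_trichotomy (rep k) (rep k') with h | h | h
      · exact ⟨fun _ => htgt _ _ h hne b b', fun _ => src_lt x m h (hkey' _ _ hne) b b'⟩
      · exact absurd (congrArg key h) hne
      · have h1 := htgt _ _ h (Ne.symm hne) b' b
        have h2 := src_lt x m h (hkey' _ _ (Ne.symm hne)) b' b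
        exact ⟨fun h3 => absurd (h3.trans h2) (lt_irrefl _),
          fun h3 => absurd (h3.trans h1) (lt_irrefl _)⟩)
  have hin : ∀ z b, (key z, b) ∈ P := fun z b => Finset.mem_product.2
    ⟨Finset.mem_filter.2 ⟨Finset.mem_univ _, ⟨z, rfl⟩⟩, Finset.mem_univ _⟩
  have hσ1 : ∀ z, idx z ≤ m → σ (e x z) = f z := by
    intro z hz
    have h1 := hσ _ (hin z false)
    have h2 : rep (key z) = z := idx_of_key (hkey _ _ (hrep z).symm) hz
    change σ (src x m (rep (key z)) false) = tgt (rep (key z)) false at h1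
    rw [h2] at h1
    simp only [src, tgt, if_pos hz] at h1
    exact h1
  have hσ2 : ∀ z, m < idx z → σ (sp x m 1 z) = u (rep (key z)) ∧
      σ (sp x m 2 z) = v (rep (key z)) ∧ u (rep (key z)) < f z ∧ g z < v (rep (key z)) := by
    intro z hz
    have hr : ¬ idx (rep (key z)) ≤ m := by
      intro hr
      have h2 : z = rep (key z) := idx_of_key (hkey _ _ (hrep z)) hr
      rw [← h2] at hr
      omega
    have h1 := hσ _ (hin z false)
    have h2 := hσ _ (hin z true)
    change σ (src x m (rep (key z)) false) = tgt (rep (key z)) false at h1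
    change σ (src x m (rep (key z)) true) = tgt (rep (key z)) true at h2
    simp only [src, tgt, if_neg hr] at h1 h2
    have hz2 := huvz (rep (key z)) (by omega) z (hkey _ _ (hrep z).symm)
    rw [sp_congr x m 1 (hkey _ _ (hrep z).symm), sp_congr x m 2 (hkey _ _ (hrep z).symm)]
    exact ⟨h1, h2, hz2⟩
  refine ⟨σ, fun z => ?_, fun z => ?_⟩
  · by_cases hz : idx z ≤ m
    · exact le_of_eq (hσ1 z hz)
    · obtain ⟨h1, h2, h3, h4⟩ := hσ2 z (by omega)
      have h5 := σ.lt_iff_lt.2 (e_lt_sp x m hx (z := z) (by omega))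
      rw [h1] at h5
      exact le_of_lt (h5.trans h3)
  · by_cases hz : idx z ≤ m
    · rw [← e_agree x m hxx hz, hσ1 z hz, hfg z hz]
    · obtain ⟨h1, h2, h3, h4⟩ := hσ2 z (by omega)
      have h5 := σ.lt_iff_lt.2 (sp_lt_e x m hxx hx' (z := z) (by omega))
      rw [h2] at h5
      exact le_of_lt (h4.trans h5)

end Pool.Agent.X193.QPOL
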