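import Pool.Agent.X193.QPOL.Supp

/-!
Continuity of isomorphisms of the clone of `(ℚ; <)`, at a fixed finite arity `I`.
-/

namespace Pool.Agent.X193.QPOL

open Filter

/-- `I`-ary polymorphisms of `(ℚ; <)` -/
def PolQ {I : Type} (f : (I → ℚ) → ℚ) : Prop := ∀ a b : I → ℚ, (∀ i, a i < b i) → f a < f b

/-- `S` supports the point `z`. -/
def QSupp {Y : Type} (θ : (ℚ → ℚ) → Y → Y) (S : Finset ℚ) (z : Y) : Prop :=
  ∀ f g : ℚ → ℚ, StrictMono f → StrictMono g → (∀ x ∈ S, f x = g x) → θ f z = θ g z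

/-- A map `X` from the `I`-ary polymorphisms of `(ℚ; <)` to the `I`-ary operations of `Y` which
respects the compositions with embeddings on both sides. -/
structure QAct {I Y : Type} (θ : (ℚ → ℚ) → Y → Y)
    (X : ((I → ℚ) → ℚ) → (I → Y) → Y) : Prop where
  hcomp : ∀ f g : ℚ → ℚ, StrictMono f → StrictMono g → θ (f ∘ g) = θ f ∘ θ g
  hid : θ id = id
  hsupp : ∀ z, ∃ S, QSupp θ S z
  left_eq : ∀ l : ℚ → ℚ, StrictMono l → ∀ f, PolQ f → ∀ y : I → Y,
    X (fun a => l (f a)) y = θ l (X f y)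
  right_eq : ∀ c : ℚ → ℚ, StrictMono c → ∀ f, PolQ f → ∀ y : I → Y,
    X (fun a => f (c ∘ a)) y = X f (fun i => θ c (y i))

section

variable {I Y : Type} {θ : (ℚ → ℚ) → Y → Y} {X : ((I → ℚ) → ℚ) → (I → Y) → Y}

theorem PolQ.left {f : (I → ℚ) → ℚ} (hf : PolQ f) {l : ℚ → ℚ} (hl : StrictMono l) :
    PolQ fun a => l (f a) := fun a b hab => hl (hf a b hab)

theorem PolQ.right {f : (I → ℚ) → ℚ} (hf : PolQ f) {c : ℚ → ℚ} (hc : StrictMono c) :
    PolQ fun a => f (c ∘ a) := fun _ _ hab => hf _ _ fun i => hc (hab i)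

/-- Embeddings act as injections. -/
theorem qact_inj (h : QAct θ X) {l : ℚ → ℚ} (hl : StrictMono l) : Function.Injective (θ l) := by
  classical
  intro z z' hz
  obtain ⟨S, hS⟩ := h.hsupp z
  obtain ⟨T, hT⟩ := h.hsupp z'
  obtain ⟨σ, hσ⟩ := auto_match (S ∪ T) (fun x => x) l (fun i _ j _ => hl.lt_iff_lt.symm)
  have h1 := hS σ l σ.strictMono hl fun x hx => hσ x (Finset.mem_union_left _ hx)
  have h2 := hT σ l σ.strictMono hl fun x hx => hσ x (Finset.mem_union_right _ hx)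
  have h3 : θ (σ.symm ∘ σ) = θ σ.symm ∘ θ σ := h.hcomp _ _ σ.symm.strictMono σ.strictMono
  have h4 : (σ.symm ∘ σ : ℚ → ℚ) = id := funext fun x => σ.symm_apply_apply x
  rw [h4, h.hid] at h3
  have h5 := congrFun h3 z
  have h6 := congrFun h3 z'
  change z = θ σ.symm (θ σ z) at h5
  change z' = θ σ.symm (θ σ z') at h6
  rw [h5, h6, h1, h2, hz]

variable [Finite I]

/-- **Continuity of `X`.** -/
theorem qcont (h : QAct θ X) (i0 : I) (y : I → Y) :
    ∃ A : Finset ℚ, ∀ f g : (I → ℚ) → ℚ, PolQ f → PolQ g →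
      (∀ a : I → ℚ, (∀ i, a i ∈ A) → f a = g a) → X f y = X g y := by
  classical
  have := Fintype.ofFinite I
  choose S hS using fun i => h.hsupp (y i)
  obtain ⟨c, c', A, hc, hc', hfix, hfix', hAA, hsep, hsep', -, -⟩ := spread (Finset.univ.biUnion S)
  refine ⟨A, fun f g hf hg hfg => ?_⟩
  have hy : ∀ d : ℚ → ℚ, StrictMono d → (∀ x ∈ Finset.univ.biUnion S, d x = x) → ∀ G, PolQ G →
      X (fun a => G (d ∘ a)) y = X G y := by
    intro d hd hdx G hG
    rw [h.right_eq d hd G hG]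
    congr 1
    funext i
    have h1 := hS i d id hd strictMono_id fun x hx =>
      hdx x (Finset.mem_biUnion.2 ⟨i, Finset.mem_univ i, hx⟩)
    rw [h.hid] at h1
    exact h1
  -- the common extension
  let p : (I → ℚ) → ℚ := fun a => if ∃ b : I → ℚ, a = c ∘ b then f a else g a
  have hp1 : ∀ b : I → ℚ, p (c ∘ b) = f (c ∘ b) := fun b => if_pos ⟨b, rfl⟩
  have hp2 : ∀ b : I → ℚ, p (c' ∘ b) = g (c' ∘ b) := by
    intro b
    by_cases hb : ∃ b' : I → ℚ, c' ∘ b = c ∘ b'
    · obtain ⟨b', hb'⟩ := hb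
      rw [hb', hp1]
      refine hfg _ fun i => ?_
      exact hAA (b' i) (b i) (congrFun hb' i).symm
    · exact if_neg hb
  have hfgA : ∀ e : I → ℚ, (∀ i, e i ∈ A) → f e = g e := hfg
  obtain ⟨G, m, hm, hG, hGp⟩ := ext_partial i0
    ({a | ∃ b : I → ℚ, a = c ∘ b} ∪ {a | ∃ b : I → ℚ, a = c' ∘ b}) p (by
      rintro a (⟨b, rfl⟩ | ⟨b, rfl⟩) a' (⟨b', rfl⟩ | ⟨b', rfl⟩) hab
      · rw [hp1, hp1]; exact hf _ _ hab
      · rw [hp1, hp2]
        choose e he he1 he2 using fun i => hsep (b i) (b' i) (hab i)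
        exact (hf _ e he1).trans ((hfgA e he).trans_lt (hg e _ he2))
      · rw [hp1, hp2]
        choose e he he1 he2 using fun i => hsep' (b' i) (b i) (hab i)
        exact (hg _ e he1).trans ((hfgA e he).symm.trans_lt (hf e _ he2))
      · rw [hp2, hp2]; exact hg _ _ hab)
  have e1 : (fun a : I → ℚ => G (c ∘ a)) = fun a => m (f (c ∘ a)) := by
    funext a
    rw [hGp _ (Or.inl ⟨a, rfl⟩), hp1]
  have e2 : (fun a : I → ℚ => G (c' ∘ a)) = fun a => m (g (c' ∘ a)) := by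
    funext a
    rw [hGp _ (Or.inr ⟨a, rfl⟩), hp2]
  have h1 : θ m (X f y) = X G y := by
    rw [← hy c hc hfix f hf, ← h.left_eq m hm _ (hf.right hc), ← hy c hc hfix G hG, e1]
  have h2 : θ m (X g y) = X G y := by
    rw [← hy c' hc' hfix' g hg, ← h.left_eq m hm _ (hg.right hc'), ← hy c' hc' hfix' G hG, e2]
  exact qact_inj h hm (h1.trans h2.symm)

/-- **Continuity of the inverse of `X`.** -/
theorem qcont_inv (h : QAct θ X) (i0 : I)
    (hX : ∀ f g : (I → ℚ) → ℚ, PolQ f → PolQ g → X f = X g → f = g)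
    {f : (I → ℚ) → ℚ} (hf : PolQ f) (a : I → ℚ) :
    ∃ V : Finset (I → Y), ∀ g, PolQ g → (∀ y ∈ V, X g y = X f y) → g a = f a := by
  classical
  by_contra hcon
  push Not at hcon
  choose G hG hag hne using hcon
  let U : Ultrafilter (Finset (I → Y)) := Ultrafilter.of atTop
  have hU : (U : Filter (Finset (I → Y))) ≤ atTop := Ultrafilter.of_le _
  obtain ⟨T, hT⟩ := qlim U (fun V => Sum.elim (fun b : I → ℚ => G V b) (fun x : ℚ => x))
  let g : (I → ℚ) → ℚ := fun a => T (Sum.inl a)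
  let m : ℚ → ℚ := fun x => T (Sum.inr x)
  have hm : StrictMono m := by
    intro x x' hxx
    obtain ⟨k, σ, hσ⟩ := (hT {Sum.inr x, Sum.inr x'}).exists
    have h1 := hσ (Sum.inr x) (by simp)
    have h2 := hσ (Sum.inr x') (by simp)
    change σ x = m x at h1
    change σ x' = m x' at h2
    rw [← h1, ← h2]
    exact σ.strictMono hxx
  have hg : PolQ g := by
    intro b b' hbb
    obtain ⟨k, σ, hσ⟩ := (hT {Sum.inl b, Sum.inl b'}).exists
    have h1 := hσ (Sum.inl b) (by simp)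
    have h2 := hσ (Sum.inl b') (by simp)
    change σ (G k b) = g b at h1
    change σ (G k b') = g b' at h2
    rw [← h1, ← h2]
    exact σ.strictMono (hG k b b' hbb)
  have hkey : X g = X (fun b => m (f b)) := by
    funext y
    obtain ⟨A, hA⟩ := qcont h i0 y
    obtain ⟨t, ht⟩ := h.hsupp (X f y)
    have hfin : {b : I → ℚ | ∀ i, b i ∈ A}.Finite := by
      have h2 := Set.Finite.pi' (ι := I) (t := fun _ => (A : Set ℚ)) (fun _ => A.finite_toSet)
      exact h2
    obtain ⟨V, ⟨σ, hσ⟩, hV⟩ := ((hT (hfin.toFinset.image Sum.inl ∪ t.image Sum.inr)).and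
      (hU (eventually_ge_atTop ({y} : Finset (I → Y))))).exists
    have h1 := hA (fun b => σ (G V b)) g ((hG V).left σ.strictMono) hg (by
      intro b hb
      refine hσ (Sum.inl b) (Finset.mem_union_left _ (Finset.mem_image_of_mem _ ?_))
      exact (Set.Finite.mem_toFinset _).2 hb)
    rw [← h1, h.left_eq σ σ.strictMono _ (hG V), hag V y (hV (Finset.mem_singleton_self y)),
      h.left_eq m hm f hf]
    refine ht σ m σ.strictMono hm fun x hx => ?_
    exact hσ (Sum.inr x) (Finset.mem_union_right _ (Finset.mem_image_of_mem _ hx))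
  have hgm := hX g _ hg (hf.left hm) hkey
  obtain ⟨V, σ, hσ⟩ := (hT {Sum.inl a, Sum.inr (f a)}).exists
  have h1 := hσ (Sum.inl a) (by simp)
  have h2 := hσ (Sum.inr (f a)) (by simp)
  refine hne V (σ.injective ?_)
  change σ (G V a) = g a at h1
  change σ (f a) = m (f a) at h2
  rw [h1, h2, hgm]

end

end Pool.Agent.X193.QPOL
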