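import Mathlib

/-!
Tools about the order of the rationals: finite partial isomorphisms, limits along ultrafilters,
extension of partial polymorphisms of `(ℚ; <)`, spreading.
-/

namespace Pool.Agent.X193.QPOL

open Filter

/-- Finite partial isomorphisms of `(ℚ; <)` extend to automorphisms. -/
theorem auto_match {ι : Type} (F : Finset ι) (t T : ι → ℚ)
    (h : ∀ i ∈ F, ∀ j ∈ F, (t i < t j ↔ T i < T j)) :
    ∃ σ : ℚ ≃o ℚ, ∀ i ∈ F, σ (t i) = T i := by
  classical
  let p : Order.PartialIso ℚ ℚ := ⟨F.image fun i => (t i, T i), by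
    intro a ha b hb
    rw [Finset.mem_image] at ha hb
    obtain ⟨i, hi, rfl⟩ := ha
    obtain ⟨j, hj, rfl⟩ := hb
    change cmp (t i) (t j) = cmp (T i) (T j)
    rcases lt_trichotomy (t i) (t j) with h1 | h1 | h1
    · rw [(cmp_eq_lt_iff _ _).2 h1, (cmp_eq_lt_iff _ _).2 ((h i hi j hj).1 h1)]
    · have h2 : T i = T j := by
        rcases lt_trichotomy (T i) (T j) with h3 | h3 | h3
        · exact absurd ((h i hi j hj).2 h3) (by rw [h1]; exact lt_irrefl _)
        · exact h3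
        · exact absurd ((h j hj i hi).2 h3) (by rw [h1]; exact lt_irrefl _)
      rw [(cmp_eq_eq_iff _ _).2 h1, (cmp_eq_eq_iff _ _).2 h2]
    · rw [(cmp_eq_gt_iff _ _).2 h1, (cmp_eq_gt_iff _ _).2 ((h j hj i hi).1 h1)]⟩
  let D : ℚ ⊕ ℚ → Order.Cofinal (Order.PartialIso ℚ ℚ) := fun x =>
    Sum.recOn x (Order.PartialIso.definedAtLeft ℚ) (Order.PartialIso.definedAtRight ℚ)
  let I : Order.Ideal (Order.PartialIso ℚ ℚ) := Order.idealOfCofinals p D
  let A a := Order.PartialIso.funOfIdeal a I (Order.cofinal_meets_idealOfCofinals _ D (Sum.inl a))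
  let B b := Order.PartialIso.invOfIdeal b I (Order.cofinal_meets_idealOfCofinals _ D (Sum.inr b))
  refine ⟨OrderIso.ofCmpEqCmp (fun a => (A a).val) (fun b => (B b).val) fun a b => ?_,
    fun i hi => ?_⟩
  · rcases (A a).prop with ⟨f, hf, ha⟩
    rcases (B b).prop with ⟨g, hg, hb⟩
    rcases I.directed _ hf _ hg with ⟨m, _, fm, gm⟩
    exact m.prop (a, _) (fm ha) (_, b) (gm hb)
  · change (A (t i)).val = T i
    rcases (A (t i)).prop with ⟨f, hf, ha⟩
    rcases I.directed _ hf _ (Order.mem_idealOfCofinals p D) with ⟨m, _, fm, pm⟩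
    have h1 := m.prop (t i, _) (fm ha) (t i, T i)
      (pm (Finset.mem_image_of_mem (fun i => (t i, T i)) hi))
    change cmp (t i) (t i) = cmp (A (t i)).val (T i) at h1
    rw [cmp_self_eq_eq] at h1
    exact (cmp_eq_eq_iff _ _).1 h1.symm

/-- Limits of families of maps into `ℚ` along an ultrafilter, up to automorphisms. -/
theorem qlim {S J : Type} [Countable J] (U : Ultrafilter S) (t : S → J → ℚ) :
    ∃ T : J → ℚ, ∀ F : Finset J, ∀ᶠ s in (U : Filter S), ∃ σ : ℚ ≃o ℚ,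
      ∀ j ∈ F, σ (t s j) = T j := by
  classical
  let T0 : J → Filter.Germ (U : Filter S) ℚ := fun j => ↑(fun s => t s j)
  have : Countable (Set.range T0) := (Set.countable_range T0).to_subtype
  obtain ⟨ψ⟩ := Order.embedding_from_countable_to_dense (Set.range T0) ℚ
  refine ⟨fun j => ψ ⟨T0 j, Set.mem_range_self j⟩, fun F => ?_⟩
  have h1 : ∀ i ∈ F, ∀ j ∈ F, ∀ᶠ s in (U : Filter S), (t s i < t s j ↔
      ψ ⟨T0 i, Set.mem_range_self i⟩ < ψ ⟨T0 j, Set.mem_range_self j⟩) := by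
    intro i _ j _
    have h2 : ψ ⟨T0 i, Set.mem_range_self i⟩ < ψ ⟨T0 j, Set.mem_range_self j⟩ ↔
        ∀ᶠ s in (U : Filter S), t s i < t s j := by
      rw [ψ.lt_iff_lt, Subtype.mk_lt_mk]
      exact Filter.Germ.coe_lt
    rw [h2]
    by_cases h : ∀ᶠ s in (U : Filter S), t s i < t s j
    · exact h.mono fun s hs => ⟨fun _ => h, fun _ => hs⟩
    · exact (Ultrafilter.eventually_not.2 h).mono fun s hs =>
        ⟨fun h3 => absurd h3 hs, fun h3 => absurd h3 h⟩
  have h2 : ∀ᶠ s in (U : Filter S), ∀ i ∈ F, ∀ j ∈ F, (t s i < t s j ↔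
      ψ ⟨T0 i, Set.mem_range_self i⟩ < ψ ⟨T0 j, Set.mem_range_self j⟩) := by
    rw [Filter.eventually_all_finset]
    intro i hi
    rw [Filter.eventually_all_finset]
    intro j hj
    exact h1 i hi j hj
  exact h2.mono fun s hs => auto_match F (t s) _ hs

theorem iic_lt {a b : ℚ} (h : a < b) : LowerSet.Iic a < LowerSet.Iic b := by
  refine lt_of_le_of_ne (fun q hq => le_trans hq (le_of_lt h)) fun h1 => ?_
  have h2 : b ∈ LowerSet.Iic a := by
    rw [h1]
    exact le_refl b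
  exact absurd h (not_lt.2 h2)

/-- Every partial polymorphism extends, up to an embedding, to a polymorphism. -/
theorem ext_partial {I : Type} [Finite I] (i0 : I) (U : Set (I → ℚ)) (p : (I → ℚ) → ℚ)
    (hp : ∀ a ∈ U, ∀ b ∈ U, (∀ i, a i < b i) → p a < p b) :
    ∃ (G : (I → ℚ) → ℚ) (m : ℚ → ℚ), StrictMono m ∧
      (∀ a b : I → ℚ, (∀ i, a i < b i) → G a < G b) ∧ ∀ a ∈ U, G a = m (p a) := by
  classical
  let D : (I → ℚ) → LowerSet ℚ := fun x =>
    ⟨{q | ∃ u ∈ U, (∀ i, u i < x i) ∧ q ≤ p u}, fun a b hba ha => by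
      obtain ⟨u, hu, hux, hq⟩ := ha
      exact ⟨u, hu, hux, le_trans hba hq⟩⟩
  let g0 : (I → ℚ) → LowerSet ℚ ×ₗ WithBot ℚ := fun x =>
    if x ∈ U then toLex (LowerSet.Iic (p x), ⊥) else toLex (D x, ((x i0 : ℚ) : WithBot ℚ))
  let m0 : ℚ → LowerSet ℚ ×ₗ WithBot ℚ := fun q => toLex (LowerSet.Iic q, ⊥)
  have hD : ∀ x x' : I → ℚ, (∀ i, x i < x' i) → D x ≤ D x' := by
    intro x x' hx q hq
    obtain ⟨u, hu, hux, hq⟩ := hq
    exact ⟨u, hu, fun i => lt_trans (hux i) (hx i), hq⟩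
  have hg : ∀ a b : I → ℚ, (∀ i, a i < b i) → g0 a < g0 b := by
    intro a b hab
    by_cases ha : a ∈ U <;> by_cases hb : b ∈ U
    · simp only [g0, if_pos ha, if_pos hb]
      rw [Prod.Lex.toLex_lt_toLex]
      left
      exact iic_lt (hp a ha b hb hab)
    · simp only [g0, if_pos ha, if_neg hb]
      rw [Prod.Lex.toLex_lt_toLex]
      have h1 : LowerSet.Iic (p a) ≤ D b := by
        intro q hq
        exact ⟨a, ha, hab, hq⟩
      rcases lt_or_eq_of_le h1 with h2 | h2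
      · exact Or.inl h2
      · exact Or.inr ⟨h2, WithBot.bot_lt_coe _⟩
    · simp only [g0, if_neg ha, if_pos hb]
      rw [Prod.Lex.toLex_lt_toLex]
      left
      refine lt_of_le_of_ne ?_ ?_
      · intro q hq
        obtain ⟨u, hu, hux, hq⟩ := hq
        exact le_trans hq (le_of_lt (hp u hu b hb fun i => lt_trans (hux i) (hab i)))
      · intro h
        have h1 : p b ∈ D a := by
          rw [show D a = LowerSet.Iic (p b) from h]
          exact le_refl (p b)
        obtain ⟨u, hu, hux, hq⟩ := h1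
        exact absurd (hp u hu b hb fun i => lt_trans (hux i) (hab i)) (not_lt.2 hq)
    · simp only [g0, if_neg ha, if_neg hb]
      rw [Prod.Lex.toLex_lt_toLex]
      rcases lt_or_eq_of_le (hD a b hab) with h2 | h2
      · exact Or.inl h2
      · exact Or.inr ⟨h2, WithBot.coe_lt_coe.2 (hab i0)⟩
  have hm : StrictMono m0 := by
    intro a b hab
    simp only [m0]
    rw [Prod.Lex.toLex_lt_toLex]
    left
    exact iic_lt hab
  let Φ : (I → ℚ) ⊕ ℚ → LowerSet ℚ ×ₗ WithBot ℚ := Sum.elim g0 m0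
  have : Countable (Set.range Φ) := (Set.countable_range Φ).to_subtype
  obtain ⟨ψ⟩ := Order.embedding_from_countable_to_dense (Set.range Φ) ℚ
  refine ⟨fun a => ψ ⟨g0 a, ⟨Sum.inl a, rfl⟩⟩, fun q => ψ ⟨m0 q, ⟨Sum.inr q, rfl⟩⟩, ?_, ?_, ?_⟩
  · intro a b hab
    exact ψ.lt_iff_lt.2 (Subtype.mk_lt_mk.2 (hm hab))
  · intro a b hab
    exact ψ.lt_iff_lt.2 (Subtype.mk_lt_mk.2 (hg a b hab))
  · intro a ha
    have h1 : g0 a = m0 (p a) := if_pos ha
    simp only [h1]

/-- The function `f` jumps at `x`, on both sides. -/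
def Jump (f : ℚ → ℚ) (x : ℚ) : Prop :=
  ∃ a b, a < f x ∧ f x < b ∧ (∀ q < x, f q < a) ∧ ∀ q, x < q → b < f q

/-- The function `f` is bounded. -/
def Bdd (f : ℚ → ℚ) : Prop := ∃ a b, ∀ q, a < f q ∧ f q < b

/-- position relative to a finite set -/
def pos (s : Finset ℚ) (q : ℚ) : ℕ := 2 * (s.filter (· < q)).card + if q ∈ s then 1 else 0

theorem pos_le {s : Finset ℚ} {q q' : ℚ} (h : q < q') : pos s q ≤ pos s q' := by
  unfold pos
  by_cases hq : q ∈ s
  · have h1 : s.filter (· < q) ⊂ s.filter (· < q') := by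
      rw [Finset.ssubset_iff_of_subset (Finset.monotone_filter_right _ fun x _ hx => hx.trans h)]
      exact ⟨q, Finset.mem_filter.2 ⟨hq, h⟩, fun hx => lt_irrefl _ (Finset.mem_filter.1 hx).2⟩
    have h2 := Finset.card_lt_card h1
    rw [if_pos hq]
    omega
  · have h1 : s.filter (· < q) ⊆ s.filter (· < q') :=
      Finset.monotone_filter_right _ fun x _ hx => hx.trans h
    have h2 := Finset.card_le_card h1
    rw [if_neg hq]
    omega

theorem pos_lt_left {s : Finset ℚ} {q q' : ℚ} (h : q < q') (hq : q ∈ s) :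
    pos s q < pos s q' := by
  unfold pos
  have h1 : s.filter (· < q) ⊂ s.filter (· < q') := by
    rw [Finset.ssubset_iff_of_subset (Finset.monotone_filter_right _ fun x _ hx => hx.trans h)]
    exact ⟨q, Finset.mem_filter.2 ⟨hq, h⟩, fun hx => lt_irrefl _ (Finset.mem_filter.1 hx).2⟩
  have h2 := Finset.card_lt_card h1
  rw [if_pos hq]
  omega

theorem pos_lt_right {s : Finset ℚ} {q q' : ℚ} (h : q < q') (hq : q' ∈ s) :
    pos s q < pos s q' := by
  by_cases h0 : q ∈ s
  · exact pos_lt_left h h0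
  · unfold pos
    have h1 : s.filter (· < q) ⊆ s.filter (· < q') :=
      Finset.monotone_filter_right _ fun x _ hx => hx.trans h
    have h2 := Finset.card_le_card h1
    rw [if_pos hq, if_neg h0]
    omega

theorem pos_bound (s : Finset ℚ) (q : ℚ) : pos s q < 2 * s.card + 2 := by
  unfold pos
  have h1 := Finset.card_filter_le s (· < q)
  split_ifs <;> omega

/-- Two embeddings which fix a finite set, and are separated elsewhere. -/
theorem spread (s : Finset ℚ) : ∃ (c c' : ℚ → ℚ) (A : Finset ℚ), StrictMono c ∧ StrictMono c' ∧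
    (∀ x ∈ s, c x = x) ∧ (∀ x ∈ s, c' x = x) ∧ (∀ q q', c q = c' q' → c q ∈ A) ∧
    (∀ q q', c q < c' q' → ∃ e ∈ A, c q < e ∧ e < c' q') ∧
    (∀ q q', c' q' < c q → ∃ e ∈ A, c' q' < e ∧ e < c q) ∧
    (∀ x ∈ s, Jump c x) ∧ Bdd c := by
  classical
  let Z := ℕ ×ₗ (ℕ ×ₗ ℚ)
  have : Countable Z := inferInstanceAs (Countable (ℕ × (ℕ × ℚ)))
  obtain ⟨ψ⟩ := Order.embedding_from_countable_to_dense Z ℚ
  let k : ℕ → ℚ → Z := fun d q =>
    if q ∈ s then toLex (pos s q, toLex (0, 0)) else toLex (pos s q, toLex (d, q))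
  have hk : ∀ d, 0 < d → StrictMono (k d) := by
    intro d hd q q' h
    by_cases hq : q ∈ s
    · simp only [k, if_pos hq]
      by_cases hq' : q' ∈ s
      · simp only [if_pos hq']
        exact Prod.Lex.toLex_lt_toLex.2 (Or.inl (pos_lt_left h hq))
      · simp only [if_neg hq']
        exact Prod.Lex.toLex_lt_toLex.2 (Or.inl (pos_lt_left h hq))
    · by_cases hq' : q' ∈ s
      · simp only [k, if_neg hq, if_pos hq']
        exact Prod.Lex.toLex_lt_toLex.2 (Or.inl (pos_lt_right h hq'))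
      · simp only [k, if_neg hq, if_neg hq']
        rcases lt_or_eq_of_le (pos_le (s := s) h) with h1 | h1
        · exact Prod.Lex.toLex_lt_toLex.2 (Or.inl h1)
        · exact Prod.Lex.toLex_lt_toLex.2 (Or.inr ⟨h1,
            Prod.Lex.toLex_lt_toLex.2 (Or.inr ⟨rfl, h⟩)⟩)
  have hk0 : ∀ d x, x ∈ s → k d x = k 1 x := by
    intro d x hx
    simp only [k, if_pos hx]
  obtain ⟨σ, hσ⟩ := auto_match s (fun x => ψ (k 1 x)) (fun x => x) (fun x _ y _ => by
    rw [ψ.lt_iff_lt]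
    exact (hk 1 one_pos).lt_iff_lt)
  let φ : Z → ℚ := fun z => σ (ψ z)
  have hφ : StrictMono φ := fun a b hab => σ.lt_iff_lt.2 (ψ.lt_iff_lt.2 hab)
  let e : ℕ → ℕ → Z := fun p j => toLex (p, toLex (j, 0))
  let A : Finset ℚ := ((Finset.range (2 * s.card + 2)) ×ˢ (Finset.range 5)).image
    fun x => φ (e x.1 x.2)
  have hA : ∀ q j, j < 5 → φ (e (pos s q) j) ∈ A := fun q j hj =>
    Finset.mem_image.2 ⟨(pos s q, j), Finset.mem_product.2
      ⟨Finset.mem_range.2 (pos_bound s q), Finset.mem_range.2 hj⟩, rfl⟩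
  -- comparison of the values with the separators
  have hlow : ∀ d q, d < 4 → k d q < e (pos s q) 4 := by
    intro d q hd
    by_cases hq : q ∈ s
    · simp only [k, if_pos hq]
      exact Prod.Lex.toLex_lt_toLex.2 (Or.inr ⟨rfl, Prod.Lex.toLex_lt_toLex.2 (Or.inl
        (by norm_num))⟩)
    · simp only [k, if_neg hq]
      exact Prod.Lex.toLex_lt_toLex.2 (Or.inr ⟨rfl, Prod.Lex.toLex_lt_toLex.2 (Or.inl hd)⟩)
  have hhigh : ∀ d q p j, p < pos s q → e p j < k d q := by
    intro d q p j hp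
    by_cases hq : q ∈ s
    · simp only [k, if_pos hq]
      exact Prod.Lex.toLex_lt_toLex.2 (Or.inl hp)
    · simp only [k, if_neg hq]
      exact Prod.Lex.toLex_lt_toLex.2 (Or.inl hp)
  have hpos : ∀ q q', pos s q = pos s q' → q ∈ s → q = q' := by
    intro q q' h hq
    rcases lt_trichotomy q q' with h1 | h1 | h1
    · exact absurd (pos_lt_left h1 hq) (by omega)
    · exact h1
    · exact absurd (pos_lt_right h1 hq) (by omega)
  refine ⟨fun q => φ (k 1 q), fun q => φ (k 3 q), A, hφ.comp (hk 1 one_pos),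
    hφ.comp (hk 3 (by norm_num)), fun x hx => hσ x hx, fun x hx => ?_, ?_, ?_, ?_, ?_, ?_⟩
  · change φ (k 3 x) = x
    rw [hk0 3 x hx]
    exact hσ x hx
  · intro q q' h
    have h1 : k 1 q = k 3 q' := hφ.injective h
    have h2 : q ∈ s := by
      by_contra hq
      by_cases hq' : q' ∈ s
      · simp only [k, if_neg hq, if_pos hq'] at h1
        have h3 := congrArg (fun z : Z => (ofLex z).1) h1
        have h4 : pos s q = pos s q' := h3
        exact hq (hpos q' q h4.symm hq' ▸ hq')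
      · simp only [k, if_neg hq, if_neg hq'] at h1
        have h3 := congrArg (fun z : Z => (ofLex (ofLex z).2).1) h1
        have h4 : (1 : ℕ) = 3 := h3
        omega
    have h3 : k 1 q = e (pos s q) 0 := by simp only [k, if_pos h2]; rfl
    change φ (k 1 q) ∈ A
    rw [h3]
    exact hA q 0 (by norm_num)
  · intro q q' h
    have h1 : k 1 q < k 3 q' := hφ.lt_iff_lt.1 h
    rcases lt_trichotomy (pos s q) (pos s q') with h2 | h2 | h2
    · exact ⟨_, hA q 4 (by norm_num), hφ (hlow 1 q (by norm_num)), hφ (hhigh 3 q' _ 4 h2)⟩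
    · have hq : q ∉ s := by
        intro hq
        have h3 := hpos q q' h2 hq
        subst h3
        rw [hk0 3 q hq] at h1
        exact lt_irrefl _ h1
      have hq' : q' ∉ s := by
        intro hq'
        have h3 := hpos q' q h2.symm hq'
        subst h3
        exact hq hq'
      refine ⟨_, hA q 2 (by norm_num), hφ ?_, hφ ?_⟩
      · simp only [k, if_neg hq]
        exact Prod.Lex.toLex_lt_toLex.2 (Or.inr ⟨rfl, Prod.Lex.toLex_lt_toLex.2 (Or.inl
          (by norm_num))⟩)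
      · simp only [k, if_neg hq']
        exact Prod.Lex.toLex_lt_toLex.2 (Or.inr ⟨h2, Prod.Lex.toLex_lt_toLex.2 (Or.inl
          (by norm_num))⟩)
    · exact absurd h1 (not_lt.2 (le_of_lt ((hlow 3 q' (by norm_num)).trans (hhigh 1 q _ 4 h2))))
  · intro q q' h
    have h1 : k 3 q' < k 1 q := hφ.lt_iff_lt.1 h
    rcases lt_trichotomy (pos s q') (pos s q) with h2 | h2 | h2
    · exact ⟨_, hA q' 4 (by norm_num), hφ (hlow 3 q' (by norm_num)), hφ (hhigh 1 q _ 4 h2)⟩
    · exfalso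
      by_cases hq : q ∈ s
      · have h3 := hpos q q' h2.symm hq
        subst h3
        rw [hk0 3 q hq] at h1
        exact lt_irrefl _ h1
      · by_cases hq' : q' ∈ s
        · have h3 := hpos q' q h2 hq'
          subst h3
          exact hq hq'
        · simp only [k, if_neg hq, if_neg hq'] at h1
          rcases Prod.Lex.toLex_lt_toLex.1 h1 with h3 | ⟨_, h3⟩
          · change pos s q' < pos s q at h3; omega
          · rcases Prod.Lex.toLex_lt_toLex.1 h3 with h4 | ⟨h4, _⟩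
            · change (3 : ℕ) < 1 at h4; omega
            · change (3 : ℕ) = 1 at h4; omega
    · exact absurd h1 (not_lt.2 (le_of_lt ((hlow 1 q (by norm_num)).trans (hhigh 3 q' _ 4 h2))))
  · intro x hx
    have hx1 : 1 ≤ pos s x := by unfold pos; rw [if_pos hx]; omega
    refine ⟨φ (e (pos s x - 1) 4), φ (e (pos s x) 4), hφ (hhigh 1 x _ 4 (by omega)),
      hφ (hlow 1 x (by norm_num)), fun q hq => hφ ?_, fun q hq => hφ (hhigh 1 q _ 4
        (pos_lt_left hq hx))⟩
    have h1 : pos s q ≤ pos s x - 1 := by have := pos_lt_right hq hx; omega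
    rcases lt_or_eq_of_le h1 with h2 | h2
    · refine (hlow 1 q (by norm_num)).trans ?_
      exact Prod.Lex.toLex_lt_toLex.2 (Or.inl h2)
    · rw [← h2]
      exact hlow 1 q (by norm_num)
  · refine ⟨φ (toLex (0, toLex (0, -1))), φ (e (2 * s.card + 2) 0), fun q => ⟨hφ ?_, hφ ?_⟩⟩
    · by_cases hq : q ∈ s
      · simp only [k, if_pos hq]
        have hx1 : 1 ≤ pos s q := by unfold pos; rw [if_pos hq]; omega
        exact Prod.Lex.toLex_lt_toLex.2 (Or.inl (by change 0 < pos s q; omega))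
      · simp only [k, if_neg hq]
        rcases Nat.eq_zero_or_pos (pos s q) with h1 | h1
        · exact Prod.Lex.toLex_lt_toLex.2 (Or.inr ⟨h1.symm, Prod.Lex.toLex_lt_toLex.2 (Or.inl
            (by norm_num))⟩)
        · exact Prod.Lex.toLex_lt_toLex.2 (Or.inl h1)
    · refine (hlow 1 q (by norm_num)).trans ?_
      exact Prod.Lex.toLex_lt_toLex.2 (Or.inl (pos_bound s q))

/-- Embeddings which jump everywhere. -/
theorem exists_discrete (p : ℚ) : ∃ c : ℚ → ℚ, StrictMono c ∧ (∀ x, Jump c x) ∧ Bdd c ∧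
    ∃ x, c x = p := by
  have : Countable (ℕ ×ₗ (ℚ ×ₗ ℕ)) := inferInstanceAs (Countable (ℕ × (ℚ × ℕ)))
  obtain ⟨ψ⟩ := Order.embedding_from_countable_to_dense (ℕ ×ₗ (ℚ ×ₗ ℕ)) ℚ
  let g : ℚ → ℕ → ℕ ×ₗ (ℚ ×ₗ ℕ) := fun q j => toLex (1, toLex (q, j))
  have hg1 : ∀ q j j', j < j' → g q j < g q j' := fun q j j' h =>
    Prod.Lex.toLex_lt_toLex.2 (Or.inr ⟨rfl, Prod.Lex.toLex_lt_toLex.2 (Or.inr ⟨rfl, h⟩)⟩)
  have hg2 : ∀ q q' j j', q < q' → g q j < g q' j' := fun q q' j j' h =>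
    Prod.Lex.toLex_lt_toLex.2 (Or.inr ⟨rfl, Prod.Lex.toLex_lt_toLex.2 (Or.inl h)⟩)
  let r : ℚ := p - ψ (g 0 1)
  have hψ : ∀ a b, a < b → ψ a + r < ψ b + r := fun a b hab => by
    have := ψ.lt_iff_lt.2 hab
    linarith
  refine ⟨fun q => ψ (g q 1) + r, fun q q' h => hψ _ _ (hg2 _ _ _ _ h), fun x =>
    ⟨ψ (g x 0) + r, ψ (g x 2) + r, hψ _ _ (hg1 _ _ _ (by norm_num)),
      hψ _ _ (hg1 _ _ _ (by norm_num)), fun q hq => hψ _ _ (hg2 _ _ _ _ hq),
      fun q hq => hψ _ _ (hg2 _ _ _ _ hq)⟩,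
    ⟨ψ (toLex (0, toLex (0, 0))) + r, ψ (toLex (2, toLex (0, 0))) + r, fun q =>
      ⟨hψ _ _ (Prod.Lex.toLex_lt_toLex.2 (Or.inl (by norm_num))),
        hψ _ _ (Prod.Lex.toLex_lt_toLex.2 (Or.inl (by norm_num)))⟩⟩, 0, ?_⟩
  change ψ (g 0 1) + r = p
  simp only [r]
  ring

end Pool.Agent.X193.QPOL
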