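import Pool.Agent.X193.QPOL.Family

/-!
Finite supports for actions of the monoid of embeddings of `(ℚ; <)` on ordered countable sets.
-/

namespace Pool.Agent.X193.QPOL

open Filter

theorem exists_pair' {Y : Type} [Countable Y] (F : (ℕ → Bool) → Y) :
    ∃ x x' : ℕ → Bool, x ≠ x' ∧ F x = F x' := by
  classical
  by_contra hcon
  push Not at hcon
  obtain ⟨ι, hι⟩ := exists_injective_nat Y
  refine Function.cantor_injective (fun s : Set ℕ => ι (F fun n => decide (n ∈ s))) ?_
  intro s t hst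
  by_contra hne
  refine hcon (fun n => decide (n ∈ s)) (fun n => decide (n ∈ t)) ?_ (hι hst)
  intro h
  apply hne
  ext n
  have := congrFun h n
  exact decide_eq_decide.1 this

theorem jump_max {f g : ℚ → ℚ} {s : ℚ} (hfg : f s = g s) (hf : Jump f s) (hg : Jump g s) :
    Jump (fun z => max (f z) (g z)) s := by
  obtain ⟨a, b, h1, h2, h3, h4⟩ := hf
  obtain ⟨a', b', h1', h2', h3', h4'⟩ := hg
  refine ⟨max a a', min b b', ?_, ?_, fun q hq => ?_, fun q hq => ?_⟩
  · exact max_lt (lt_max_of_lt_left h1) (lt_max_of_lt_right h1')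
  · change max (f s) (g s) < min b b'
    rw [← hfg, max_self]
    exact lt_min h2 (by rw [hfg]; exact h2')
  · exact max_lt_max (h3 q hq) (h3' q hq)
  · exact lt_of_le_of_lt (min_le_left _ _) (lt_max_of_lt_left (h4 q hq))

theorem bdd_max {f g : ℚ → ℚ} (hf : Bdd f) (hg : Bdd g) : Bdd (fun z => max (f z) (g z)) := by
  obtain ⟨a, b, h⟩ := hf
  obtain ⟨a', b', h'⟩ := hg
  exact ⟨a, max b b', fun q => ⟨lt_max_of_lt_left (h q).1, max_lt_max (h q).2 (h' q).2⟩⟩

theorem Jump.comp_left {f g : ℚ → ℚ} {s : ℚ} (hf : StrictMono f) (hg : Jump g s) :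
    Jump (f ∘ g) s := by
  obtain ⟨a, b, h1, h2, h3, h4⟩ := hg
  exact ⟨f a, f b, hf h1, hf h2, fun q hq => hf (h3 q hq), fun q hq => hf (h4 q hq)⟩

theorem Bdd.comp_left {f g : ℚ → ℚ} (hf : StrictMono f) (hg : Bdd g) : Bdd (f ∘ g) := by
  obtain ⟨a, b, h⟩ := hg
  exact ⟨f a, f b, fun q => ⟨hf (h q).1, hf (h q).2⟩⟩

section

variable {Y : Type} [Countable Y] {θ : (ℚ → ℚ) → Y → Y} {le : Y → Y → Prop}

/-- first step: embeddings with jumps -/
theorem star (hcomp : ∀ f g : ℚ → ℚ, StrictMono f → StrictMono g → θ (f ∘ g) = θ f ∘ θ g)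
    (hmono : ∀ f g : ℚ → ℚ, StrictMono f → StrictMono g → (∀ z, f z ≤ g z) →
      ∀ y, le (θ f y) (θ g y))
    (hanti : ∀ a b, le a b → le b a → a = b) (htrans : ∀ a b c, le a b → le b c → le a c) (y : Y) :
    ∃ m : ℕ, ∀ f g : ℚ → ℚ, StrictMono f → StrictMono g → (∀ s, idx s ≤ m → f s = g s) →
      (∀ s, idx s ≤ m → Jump f s) → (∀ s, idx s ≤ m → Jump g s) → Bdd f → Bdd g →
      θ f y = θ g y := by
  classical
  obtain ⟨x0, x0', hne0, hxx0⟩ := exists_pair' fun x => θ (e x) y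
  obtain ⟨x, x', m, hm, hx, hx', hxx⟩ : ∃ (x x' : ℕ → Bool) (m : ℕ), (∀ i < m, x i = x' i) ∧
      x m = false ∧ x' m = true ∧ θ (e x) y = θ (e x') y := by
    have hex : ∃ i, x0 i ≠ x0' i := by
      by_contra h
      push Not at h
      exact hne0 (funext h)
    have h1 : ∀ i < Nat.find hex, x0 i = x0' i := fun i hi => by
      have := Nat.find_min hex hi
      push Not at this
      exact this
    have h2 := Nat.find_spec hex
    cases h3 : x0 (Nat.find hex)
    · cases h4 : x0' (Nat.find hex)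
      · exact absurd (h3.trans h4.symm) h2
      · exact ⟨x0, x0', _, h1, h3, h4, hxx0⟩
    · cases h4 : x0' (Nat.find hex)
      · exact ⟨x0', x0, _, fun i hi => (h1 i hi).symm, h4, h3, hxx0.symm⟩
      · exact absurd (h3.trans h4.symm) h2
  have key : ∀ f g : ℚ → ℚ, StrictMono f → StrictMono g → (∀ z, f z ≤ g z) →
      (∀ s, idx s ≤ m → f s = g s) →
      (∀ s, idx s ≤ m → Jump f s) → (∀ s, idx s ≤ m → Jump g s) → Bdd f → Bdd g →
      θ f y = θ g y := by
    intro f g hf hg hle hfg hfj hgj hfb hgb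
    obtain ⟨σ, h1, h2⟩ := sandwich hm hx hx' hf hle hfg hfj hgj hfb hgb
    have hσ : StrictMono σ := σ.strictMono
    have h3 : θ (σ ∘ e x) y = θ (σ ∘ e x') y := by
      rw [hcomp _ _ hσ (e_mono x), hcomp _ _ hσ (e_mono x')]
      exact congrArg (θ σ) hxx
    have h4 := hmono _ _ (hσ.comp (e_mono x)) hf h1 y
    have h5 := hmono _ _ hg (hσ.comp (e_mono x')) h2 y
    rw [← h3] at h5
    exact hanti _ _ (hmono f g hf hg hle y) (htrans _ _ _ h5 h4)
  refine ⟨m, fun f g hf hg hfg hfj hgj hfb hgb => ?_⟩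
  have hM : StrictMono fun z => max (f z) (g z) := fun a b hab => max_lt_max (hf hab) (hg hab)
  have hMj : ∀ s, idx s ≤ m → Jump (fun z => max (f z) (g z)) s := fun s hs =>
    jump_max (hfg s hs) (hfj s hs) (hgj s hs)
  have hMb : Bdd fun z => max (f z) (g z) := bdd_max hfb hgb
  rw [key f _ hf hM (fun z => le_max_left _ _) (fun s hs => by
      rw [← hfg s hs, max_self]) hfj hMj hfb hMb,
    key g _ hg hM (fun z => le_max_right _ _) (fun s hs => by
      rw [hfg s hs, max_self]) hgj hMj hgb hMb]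

/-- **Finite supports.** -/
theorem qsupp (hcomp : ∀ f g : ℚ → ℚ, StrictMono f → StrictMono g → θ (f ∘ g) = θ f ∘ θ g)
    (hid : θ id = id)
    (hmono : ∀ f g : ℚ → ℚ, StrictMono f → StrictMono g → (∀ z, f z ≤ g z) →
      ∀ y, le (θ f y) (θ g y))
    (hanti : ∀ a b, le a b → le b a → a = b) (htrans : ∀ a b c, le a b → le b c → le a c)
    (hinj : ∀ f g : ℚ → ℚ, StrictMono f → StrictMono g → θ f = θ g → f = g)
    (hclosed : ∀ F : Y → Y, (∀ V : Finset Y, ∃ f : ℚ → ℚ, StrictMono f ∧ ∀ y ∈ V, F y = θ f y) →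
      ∃ f : ℚ → ℚ, StrictMono f ∧ θ f = F) (y : Y) :
    ∃ t : Finset ℚ, ∀ f g : ℚ → ℚ, StrictMono f → StrictMono g → (∀ x ∈ t, f x = g x) →
      θ f y = θ g y := by
  classical
  choose m hm using star hcomp hmono hanti htrans
  -- embeddings which fix the first rationals, with jumps
  let t : ℕ → Finset ℚ := fun k => (Finset.range (k + 1)).image en
  have ht : ∀ k s, s ∈ t k ↔ idx s ≤ k := by
    intro k s
    rw [Finset.mem_image]
    constructor
    · rintro ⟨j, hj, rfl⟩
      rw [idx_en]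
      have := Finset.mem_range.1 hj
      omega
    · intro h
      exact ⟨idx s, Finset.mem_range.2 (by omega), en_idx s⟩
  choose c _ _ hc _ hcfix _ _ _ _ hcj hcb using fun k => spread (t k)
  have hconst : ∀ y k l, m y ≤ k → m y ≤ l → θ (c k) y = θ (c l) y := by
    intro y k l hk hl
    refine hm y _ _ (hc k) (hc l) (fun s hs => ?_) (fun s hs => hcj k s ((ht k s).2 (by omega)))
      (fun s hs => hcj l s ((ht l s).2 (by omega))) (hcb k) (hcb l)
    rw [hcfix k s ((ht k s).2 (by omega)), hcfix l s ((ht l s).2 (by omega))]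
  obtain ⟨f, hf, hfF⟩ := hclosed (fun y => θ (c (m y)) y) (by
    intro V
    refine ⟨c (V.sup m), hc _, fun y hy => ?_⟩
    exact hconst y _ _ (le_refl _) (Finset.le_sup (f := m) hy))
  have hstar : ∀ d : ℚ → ℚ, StrictMono d → (∀ x, Jump d x) → Bdd d → ∀ z, θ f (θ d z) = θ d z := by
    intro d hd hdj hdb z
    -- the support of `θ d z`
    have hs : ∀ f1 f2 : ℚ → ℚ, StrictMono f1 → StrictMono f2 →
        (∀ s, idx s ≤ m z → f1 (d s) = f2 (d s)) → θ f1 (θ d z) = θ f2 (θ d z) := by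
      intro f1 f2 h1 h2 h12
      have h3 := hm z (f1 ∘ d) (f2 ∘ d) (h1.comp hd) (h2.comp hd) h12
        (fun s _ => (hdj s).comp_left h1) (fun s _ => (hdj s).comp_left h2)
        (hdb.comp_left h1) (hdb.comp_left h2)
      rw [hcomp _ _ h1 hd, hcomp _ _ h2 hd] at h3
      exact h3
    let k : ℕ := max (m (θ d z)) ((t (m z)).sup fun s => idx (d s))
    have h1 : θ (c k) (θ d z) = θ id (θ d z) := by
      refine hs (c k) id (hc k) strictMono_id fun s hs => ?_
      refine hcfix k _ ((ht k _).2 ?_)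
      exact le_max_of_le_right (Finset.le_sup (f := fun s => idx (d s)) ((ht _ _).2 hs))
    rw [hid] at h1
    rw [hfF]
    change θ (c (m (θ d z))) (θ d z) = θ d z
    rw [hconst _ _ k (le_refl _) (le_max_left _ _)]
    exact h1
  have hfid : f = id := by
    funext p
    obtain ⟨d, hd, hdj, hdb, x, hx⟩ := exists_discrete p
    have h1 : θ (f ∘ d) = θ d := by
      rw [hcomp _ _ hf hd]
      funext z
      exact hstar d hd hdj hdb z
    have h2 := congrFun (hinj _ _ (hf.comp hd) hd h1) x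
    change f (d x) = d x at h2
    rw [hx] at h2
    exact h2
  have hy : θ (c (m y)) y = y := by
    have h1 : θ f y = θ (c (m y)) y := congrFun hfF y
    rw [← h1, hfid, hid]
    rfl
  refine ⟨t (m y), fun f g hf hg hfg => ?_⟩
  have hcm := hc (m y)
  have h1 : θ (f ∘ c (m y)) y = θ (g ∘ c (m y)) y := by
    refine hm y _ _ (hf.comp hcm) (hg.comp hcm) (fun s hs => ?_)
      (fun s hs => (hcj _ s ((ht _ s).2 hs)).comp_left hf)
      (fun s hs => (hcj _ s ((ht _ s).2 hs)).comp_left hg)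
      ((hcb _).comp_left hf) ((hcb _).comp_left hg)
    change f (c (m y) s) = g (c (m y) s)
    rw [hcfix _ s ((ht _ s).2 hs)]
    exact hfg s ((ht _ s).2 hs)
  rw [hcomp _ _ hf hcm, hcomp _ _ hg hcm] at h1
  change θ f (θ (c (m y)) y) = θ g (θ (c (m y)) y) at h1
  rwa [hy] at h1

end

end Pool.Agent.X193.QPOL
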